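import Mathlib
import Pool.Agent.H.MP_c8cc4c_co.Iface
import Pool.Agent.H.MP_c8cc4c_co.B.Star

/-! # MP_c8cc4c_co, part L (section 6), file GlueA: vertices, cells and walks of the glued complex -/

open scoped Classical
open Finset

noncomputable section

namespace Pool.Agent.H.MP_c8cc4c_co.Lp

variable {M : PC} {Mo : Mouths M}

/-- the ends of an edge -/
theorem inc_cases (hM : M.IsSphere) {e : M.E} {x y z : M.V} (hxy : x ≠ y) (hx : M.inc e x)
    (hy : M.inc e y) (hz : M.inc e z) : z = x ∨ z = y := by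
  obtain ⟨u, v, huv, hinc⟩ := hM.inc_two e
  have h5 := (hinc _).1 hx
  have h6 := (hinc _).1 hy
  have h7 := (hinc _).1 hz
  rcases h5 with h5 | h5 <;> rcases h6 with h6 | h6 <;> rcases h7 with h7 | h7
  · exact absurd (h5.trans h6.symm) hxy
  · exact absurd (h5.trans h6.symm) hxy
  · exact Or.inl (h7.trans h5.symm)
  · exact Or.inr (h7.trans h6.symm)
  · exact Or.inr (h7.trans h6.symm)
  · exact Or.inl (h7.trans h5.symm)
  · exact absurd (h5.trans h6.symm) hxy
  · exact absurd (h5.trans h6.symm) hxy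

theorem n_ge (Mo : Mouths M) (i : Mo.I) : 4 ≤ 2 * (Mo.a i + Mo.b i) := by
  have := Mo.ha i
  have := Mo.hab i
  omega

theorem gv_mod (Mo : Mouths M) (i : Mo.I) (s : ℕ) :
    Mo.gv i (s % (2 * (Mo.a i + Mo.b i))) = Mo.gv i s := by
  conv_rhs => rw [← Nat.mod_add_div s (2 * (Mo.a i + Mo.b i))]
  generalize s / (2 * (Mo.a i + Mo.b i)) = k
  induction k with
  | zero => rw [mul_zero, add_zero]
  | succ k ih => rw [Nat.mul_succ, ← add_assoc, Mo.gv_per, ih]

theorem ge_mod (Mo : Mouths M) (i : Mo.I) (s : ℕ) :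
    Mo.ge i (s % (2 * (Mo.a i + Mo.b i))) = Mo.ge i s := by
  conv_rhs => rw [← Nat.mod_add_div s (2 * (Mo.a i + Mo.b i))]
  generalize s / (2 * (Mo.a i + Mo.b i)) = k
  induction k with
  | zero => rw [mul_zero, add_zero]
  | succ k ih => rw [Nat.mul_succ, ← add_assoc, Mo.ge_per, ih]

theorem gv_succ_ne (Mo : Mouths M) (i : Mo.I) (t : ℕ) : Mo.gv i t ≠ Mo.gv i (t + 1) := by
  intro h
  have hn := n_ge Mo i
  rw [← gv_mod Mo i t, ← gv_mod Mo i (t + 1), ← Nat.mod_add_mod] at h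
  have h5 : t % (2 * (Mo.a i + Mo.b i)) < 2 * (Mo.a i + Mo.b i) := Nat.mod_lt _ (by omega)
  generalize t % (2 * (Mo.a i + Mo.b i)) = r at *
  have h3 := Mo.gv_inj i _ _ h5 (Nat.mod_lt _ (by omega)) h
  by_cases h6 : r + 1 < 2 * (Mo.a i + Mo.b i)
  · rw [Nat.mod_eq_of_lt h6] at h3
    omega
  · have h7 : r + 1 = 2 * (Mo.a i + Mo.b i) := by omega
    rw [h7, Nat.mod_self] at h3
    omega

/-- the edge `ge i t` has one face in the mouth and one outside -/
theorem ge_faces (hM : M.IsSphere) (i : Mo.I) (t : ℕ) :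
    ∃ f g, M.bd f (Mo.ge i t) ∧ M.bd g (Mo.ge i t) ∧ Mo.c i f = 1 ∧ Mo.c i g = 0 :=
  (dF_ne_zero_iff hM (Mo.c i)).1 ((Mo.dc i _).2 ⟨t, rfl⟩)

/-- the boundary vertices of the mouths are real -/
theorem gv_real (hM : M.IsSphere) (i : Mo.I) (t : ℕ) : Mo.gv i t ∈ Mo.Real := by
  intro j hj
  obtain ⟨f, g, hf, hg, hcf, hcg⟩ := ge_faces hM i t
  have hinc := (Mo.ge_inc i t).1
  have h1 : Mo.c j f = 1 := hj f ⟨_, hf, hinc⟩
  have h2 : i = j := Mo.disj i j f (by rw [hcf]; decide) (by rw [h1]; decide)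
  subst h2
  have h3 : Mo.c i g = 1 := hj g ⟨_, hg, hinc⟩
  rw [hcg] at h3
  exact absurd h3 (by decide)

/-- the boundary vertices of the mouths are in `Q` -/
theorem gv_mem (hM : M.IsSphere) {Q : Set M.V} {l1 : ℕ} (hC : CutOut M Q l1 Mo) (i : Mo.I) (t : ℕ) :
    Mo.gv i t ∈ Q := by
  obtain ⟨f, g, hf, hg, hcf, hcg⟩ := ge_faces hM i t
  exact hC.inQ i f _ (by rw [hcf]; decide) ⟨_, hf, (Mo.ge_inc i t).1⟩

theorem ge_okE (hM : M.IsSphere) (i : Mo.I) (t : ℕ) : Mo.okE (Sum.inl (Mo.ge i t)) := by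
  intro x hx
  rcases inc_cases hM (gv_succ_ne Mo i t) (Mo.ge_inc i t).1 (Mo.ge_inc i t).2 hx with rfl | rfl
  · exact gv_real hM i t
  · exact gv_real hM i (t + 1)

/-- an edge between real vertices is an edge of the glued complex -/
theorem okE_of (hM : M.IsSphere) {e : M.E} {x y : M.V} (hxy : x ≠ y) (hx : M.inc e x)
    (hy : M.inc e y) (hxr : x ∈ Mo.Real) (hyr : y ∈ Mo.Real) : Mo.okE (Sum.inl e) := by
  intro z hz
  rcases inc_cases hM hxy hx hy hz with rfl | rfl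
  · exact hxr
  · exact hyr

theorem gp_okV (hM : M.IsSphere) (i : Mo.I) (x y : ℕ) : Mo.okV (Mo.gp i x y) := by
  unfold Mouths.gp
  split_ifs with h
  · exact h
  · exact gv_real hM i _

/-- a real vertex as a vertex of the glued complex -/
def rv (Mo : Mouths M) (x : M.V) (hx : x ∈ Mo.Real) : (glue M Mo).V := ⟨Sum.inl x, hx⟩

/-- a grid point as a vertex of the glued complex -/
def gpt (Mo : Mouths M) (hM : M.IsSphere) (i : Mo.I) (x y : ℕ) : (glue M Mo).V :=
  ⟨Mo.gp i x y, gp_okV hM i x y⟩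

/-- a cell of the grid as a face of the glued complex -/
def gcell (Mo : Mouths M) (i : Mo.I) (x y : ℕ) (hx : x < Mo.a i) (hy : y < Mo.b i) :
    (glue M Mo).F := ⟨Sum.inr (i, x, y), ⟨hx, hy⟩⟩

theorem rv_not_gO {Q : Set M.V} {x : M.V} (hx : x ∈ Mo.Real) (hQ : x ∈ Q) :
    rv Mo x hx ∉ gO Mo Q := by
  rintro ⟨y, hy, hyQ⟩
  have : x = y := Sum.inl.inj hy
  exact hyQ (this ▸ hQ)

theorem gpt_not_gO (hM : M.IsSphere) {Q : Set M.V} {l1 : ℕ} (hC : CutOut M Q l1 Mo) (i : Mo.I)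
    (x y : ℕ) : gpt Mo hM i x y ∉ gO Mo Q := by
  rintro ⟨z, hz, hzQ⟩
  have h1 : Mo.gp i x y = Sum.inl z := hz
  unfold Mouths.gp at h1
  split_ifs at h1 with h
  exact hzQ (Sum.inl.inj h1 ▸ gv_mem hM hC i _)

/-- walks between real vertices in `Q` -/
theorem near_rv (hM : M.IsSphere) {Q : Set M.V} {k : ℕ} {x y : M.V}
    (h : Near M.graph (Q ∩ Mo.Real) k x y) (hx : x ∈ Mo.Real) (hy : y ∈ Mo.Real) :
    Near (glue M Mo).graph (gO Mo Q)ᶜ k (rv Mo x hx) (rv Mo y hy) := by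
  induction k generalizing x with
  | zero =>
    obtain ⟨rfl, h1⟩ := near_zero.1 h
    exact near_refl (rv_not_gO hx h1.1)
  | succ k ih =>
    rcases near_succ.1 h with h1 | ⟨hxA, z, hxz, hz⟩
    · exact near_mono (ih h1 hx) (by omega) subset_rfl
    · have hzA := near_left hz
      have h2 := ih hz hzA.2
      obtain ⟨hne, e, he1, he2⟩ := hxz
      refine near_succ.2 (Or.inr ⟨rv_not_gO hx hxA.1, rv Mo z hzA.2, ?_, h2⟩)
      refine ⟨fun h3 => hne (Sum.inl.inj (congrArg Subtype.val h3)),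
        ⟨Sum.inl e, okE_of hM hne he1 he2 hx hzA.2⟩, ⟨x, he1, rfl⟩, ⟨z, he2, rfl⟩⟩

/-- raw horizontal edges are edges. (Three cases; `ge_okE` for the boundary.) -/
theorem he_okE (hM : M.IsSphere) (i : Mo.I) {x y : ℕ} (hx : x < Mo.a i) (hy : y ≤ Mo.b i) :
    Mo.okE (Mo.he i x y) := by
  unfold Mouths.he
  split_ifs with h1 h2
  · exact ge_okE hM i _
  · exact ge_okE hM i _
  · exact ⟨hx, by omega, by omega⟩

theorem ve_okE (hM : M.IsSphere) (i : Mo.I) {x y : ℕ} (hx : x ≤ Mo.a i) (hy : y < Mo.b i) :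
    Mo.okE (Mo.ve i x y) := by
  unfold Mouths.ve
  split_ifs with h1 h2
  · exact ge_okE hM i _
  · exact ge_okE hM i _
  · exact ⟨by omega, by omega, hy⟩

/-- the ends of a raw horizontal edge -/
theorem he_rinc (i : Mo.I) {x y : ℕ} (hx : x < Mo.a i) (hy : y ≤ Mo.b i) :
    Mo.rinc (Mo.he i x y) (Mo.gp i x y) ∧ Mo.rinc (Mo.he i x y) (Mo.gp i (x + 1) y) := by
  have ha := Mo.ha i
  have hb := Mo.hab i
  unfold Mouths.he
  split_ifs with h1 h2
  · subst h1
    have e1 : Mo.gp i x 0 = Sum.inl (Mo.gv i x) := by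
      simp [Mouths.gp, bix]
    have e2 : Mo.gp i (x + 1) 0 = Sum.inl (Mo.gv i (x + 1)) := by
      simp [Mouths.gp, bix]
    exact ⟨⟨_, (Mo.ge_inc i x).1, e1⟩, ⟨_, (Mo.ge_inc i x).2, e2⟩⟩
  · subst h2
    have e1 : Mo.gp i x (Mo.b i) = Sum.inl (Mo.gv i (2 * Mo.a i + Mo.b i - x)) := by
      unfold Mouths.gp bix
      rw [if_neg (by omega), if_neg h1]
      by_cases h : x = Mo.a i
      · omega
      · rw [if_neg h, if_pos rfl]
    have e2 : Mo.gp i (x + 1) (Mo.b i) = Sum.inl (Mo.gv i (2 * Mo.a i + Mo.b i - x - 1)) := by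
      unfold Mouths.gp bix
      rw [if_neg (by omega), if_neg h1]
      by_cases h : x + 1 = Mo.a i
      · rw [if_pos h]
        congr 2
        omega
      · rw [if_neg h, if_pos rfl]
        congr 2
    have h3 := Mo.ge_inc i (2 * Mo.a i + Mo.b i - x - 1)
    have h4 : 2 * Mo.a i + Mo.b i - x - 1 + 1 = 2 * Mo.a i + Mo.b i - x := by omega
    rw [h4] at h3
    exact ⟨⟨_, h3.2, e1⟩, ⟨_, h3.1, e2⟩⟩
  · exact ⟨Or.inl rfl, Or.inr rfl⟩

theorem ve_rinc (i : Mo.I) {x y : ℕ} (hx : x ≤ Mo.a i) (hy : y < Mo.b i) :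
    Mo.rinc (Mo.ve i x y) (Mo.gp i x y) ∧ Mo.rinc (Mo.ve i x y) (Mo.gp i x (y + 1)) := by
  have ha := Mo.ha i
  have hb := Mo.hab i
  unfold Mouths.ve
  split_ifs with h1 h2
  · subst h1
    have e1 : Mo.gp i 0 y = Sum.inl (Mo.gv i (2 * (Mo.a i + Mo.b i) - y)) := by
      unfold Mouths.gp bix
      rw [if_neg (by omega)]
      by_cases h : y = 0
      · rw [if_pos h, h, Nat.sub_zero]
        have h5 := Mo.gv_per i 0
        rw [zero_add] at h5
        rw [h5]
      · rw [if_neg h, if_neg (by omega), if_neg (by omega)]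
    have e2 : Mo.gp i 0 (y + 1) = Sum.inl (Mo.gv i (2 * (Mo.a i + Mo.b i) - y - 1)) := by
      unfold Mouths.gp bix
      rw [if_neg (by omega), if_neg (by omega), if_neg (by omega)]
      by_cases h : y + 1 = Mo.b i
      · rw [if_pos h]
        congr 2
        omega
      · rw [if_neg h]
        congr 2
    have h3 := Mo.ge_inc i (2 * (Mo.a i + Mo.b i) - y - 1)
    have h4 : 2 * (Mo.a i + Mo.b i) - y - 1 + 1 = 2 * (Mo.a i + Mo.b i) - y := by omega
    rw [h4] at h3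
    exact ⟨⟨_, h3.2, e1⟩, ⟨_, h3.1, e2⟩⟩
  · subst h2
    have e1 : Mo.gp i (Mo.a i) y = Sum.inl (Mo.gv i (Mo.a i + y)) := by
      unfold Mouths.gp bix
      rw [if_neg (by omega)]
      by_cases h : y = 0
      · rw [if_pos h, h, add_zero]
      · rw [if_neg h, if_pos rfl]
    have e2 : Mo.gp i (Mo.a i) (y + 1) = Sum.inl (Mo.gv i (Mo.a i + y + 1)) := by
      unfold Mouths.gp bix
      rw [if_neg (by omega), if_neg (by omega), if_pos rfl, add_assoc]
    exact ⟨⟨_, (Mo.ge_inc i _).1, e1⟩, ⟨_, (Mo.ge_inc i _).2, e2⟩⟩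
  · exact ⟨Or.inl rfl, Or.inr rfl⟩

/-- neighbouring grid points are equal or adjacent -/
theorem gpt_step_h (hM : M.IsSphere) {Q : Set M.V} {l1 : ℕ} (hC : CutOut M Q l1 Mo) (i : Mo.I)
    {x y : ℕ} (hx : x < Mo.a i) (hy : y ≤ Mo.b i) :
    Near (glue M Mo).graph (gO Mo Q)ᶜ 1 (gpt Mo hM i x y) (gpt Mo hM i (x + 1) y) := by
  by_cases h : gpt Mo hM i x y = gpt Mo hM i (x + 1) y
  · rw [← h]
    exact near_mono (near_refl (gpt_not_gO hM hC i x y)) (by omega) subset_rfl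
  · exact near_adj (gpt_not_gO hM hC i x y) (gpt_not_gO hM hC i (x + 1) y)
      ⟨h, ⟨Mo.he i x y, he_okE hM i hx hy⟩, (he_rinc i hx hy).1, (he_rinc i hx hy).2⟩

theorem gpt_step_v (hM : M.IsSphere) {Q : Set M.V} {l1 : ℕ} (hC : CutOut M Q l1 Mo) (i : Mo.I)
    {x y : ℕ} (hx : x ≤ Mo.a i) (hy : y < Mo.b i) :
    Near (glue M Mo).graph (gO Mo Q)ᶜ 1 (gpt Mo hM i x y) (gpt Mo hM i x (y + 1)) := by
  by_cases h : gpt Mo hM i x y = gpt Mo hM i x (y + 1)
  · rw [← h]
    exact near_mono (near_refl (gpt_not_gO hM hC i x y)) (by omega) subset_rfl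
  · exact near_adj (gpt_not_gO hM hC i x y) (gpt_not_gO hM hC i x (y + 1))
      ⟨h, ⟨Mo.ve i x y, ve_okE hM i hx hy⟩, (ve_rinc i hx hy).1, (ve_rinc i hx hy).2⟩

/-- walks in the grid: from `(x, y)` to `(x', y')` in `|x - x'| + |y - y'|` steps -/
theorem gpt_near (hM : M.IsSphere) {Q : Set M.V} {l1 : ℕ} (hC : CutOut M Q l1 Mo) (i : Mo.I)
    {x y x' y' : ℕ} (hx : x ≤ Mo.a i) (hy : y ≤ Mo.b i) (hx' : x' ≤ Mo.a i) (hy' : y' ≤ Mo.b i) :
    Near (glue M Mo).graph (gO Mo Q)ᶜ ((x - x') + (x' - x) + ((y - y') + (y' - y)))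
      (gpt Mo hM i x y) (gpt Mo hM i x' y') := by
  have hh : ∀ k x, x + k ≤ Mo.a i → Near (glue M Mo).graph (gO Mo Q)ᶜ k
      (gpt Mo hM i x y) (gpt Mo hM i (x + k) y) := by
    intro k
    induction k with
    | zero => intro x _; exact near_refl (gpt_not_gO hM hC i x y)
    | succ k ih =>
      intro x hxk
      exact near_trans (ih x (by omega)) (gpt_step_h hM hC i (x := x + k) (by omega) hy)
  have hv : ∀ k y, y + k ≤ Mo.b i → Near (glue M Mo).graph (gO Mo Q)ᶜ k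
      (gpt Mo hM i x' y) (gpt Mo hM i x' (y + k)) := by
    intro k
    induction k with
    | zero => intro y _; exact near_refl (gpt_not_gO hM hC i x' y)
    | succ k ih =>
      intro y hyk
      exact near_trans (ih y (by omega)) (gpt_step_v hM hC i (y := y + k) hx' (by omega))
  have h1 : Near (glue M Mo).graph (gO Mo Q)ᶜ ((x - x') + (x' - x))
      (gpt Mo hM i x y) (gpt Mo hM i x' y) := by
    rcases le_total x x' with h | h
    · have h2 := hh (x' - x) x (by omega)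
      rw [Nat.add_sub_cancel' h] at h2
      have h3 : x - x' + (x' - x) = x' - x := by omega
      rw [h3]
      exact h2
    · have h2 := hh (x - x') x' (by omega)
      rw [Nat.add_sub_cancel' h] at h2
      have h3 : x - x' + (x' - x) = x - x' := by omega
      rw [h3]
      exact near_symm h2
  have h2 : Near (glue M Mo).graph (gO Mo Q)ᶜ ((y - y') + (y' - y))
      (gpt Mo hM i x' y) (gpt Mo hM i x' y') := by
    rcases le_total y y' with h | h
    · have h2 := hv (y' - y) y (by omega)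
      rw [Nat.add_sub_cancel' h] at h2
      have h3 : y - y' + (y' - y) = y' - y := by omega
      rw [h3]
      exact h2
    · have h2 := hv (y - y') y' (by omega)
      rw [Nat.add_sub_cancel' h] at h2
      have h3 : y - y' + (y' - y) = y - y' := by omega
      rw [h3]
      exact near_symm h2
  exact near_trans h1 h2

theorem bcell_lt (i : Mo.I) {t : ℕ} (ht : t < 2 * (Mo.a i + Mo.b i)) :
    (bcell (Mo.a i) (Mo.b i) t).1 < Mo.a i ∧ (bcell (Mo.a i) (Mo.b i) t).2 < Mo.b i := by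
  have ha := Mo.ha i
  have hb := Mo.hab i
  unfold bcell
  split_ifs <;> constructor <;> simp only [] <;> omega

/-- the cell at the boundary edge number `t` contains this edge -/
theorem bcell_bd (i : Mo.I) {t : ℕ} (ht : t < 2 * (Mo.a i + Mo.b i)) :
    Mo.rbd (Sum.inr (i, bcell (Mo.a i) (Mo.b i) t)) (Sum.inl (Mo.ge i t)) := by
  have ha := Mo.ha i
  have hb := Mo.hab i
  unfold bcell
  split_ifs with h1 h2 h3
  · refine Or.inl ?_
    simp [Mouths.he]
  · refine Or.inr (Or.inr (Or.inr ?_))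
    have e1 : Mo.a i - 1 + 1 = Mo.a i := by omega
    rw [e1]
    unfold Mouths.ve
    rw [if_neg (by omega), if_pos rfl]
    congr 2
    omega
  · refine Or.inr (Or.inl ?_)
    have e1 : Mo.b i - 1 + 1 = Mo.b i := by omega
    rw [e1]
    unfold Mouths.he
    rw [if_neg (by omega), if_pos rfl]
    congr 2
    omega
  · refine Or.inr (Or.inr (Or.inl ?_))
    unfold Mouths.ve
    rw [if_pos rfl]
    congr 2
    omega

/-- the boundary point number `t` is the vertex `gv i t` -/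
theorem gp_bpt (i : Mo.I) {t : ℕ} (ht : t < 2 * (Mo.a i + Mo.b i)) :
    Mo.gp i (bpt (Mo.a i) (Mo.b i) t).1 (bpt (Mo.a i) (Mo.b i) t).2 = Sum.inl (Mo.gv i t) := by
  have ha := Mo.ha i
  have hb := Mo.hab i
  unfold bpt
  split_ifs with h1 h2 h3 <;> simp only [] <;> unfold Mouths.gp <;> rw [if_neg (by omega)] <;>
    congr 2 <;> unfold bix <;> split_ifs <;> omega

/-- the boundary point number `t` is a corner of the boundary cell number `t`, and so is the next one -/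
theorem bpt_bcell (i : Mo.I) {t : ℕ} (ht : t < 2 * (Mo.a i + Mo.b i)) :
    (bcell (Mo.a i) (Mo.b i) t).1 ≤ (bpt (Mo.a i) (Mo.b i) t).1 ∧
    (bpt (Mo.a i) (Mo.b i) t).1 ≤ (bcell (Mo.a i) (Mo.b i) t).1 + 1 ∧
    (bcell (Mo.a i) (Mo.b i) t).2 ≤ (bpt (Mo.a i) (Mo.b i) t).2 ∧
    (bpt (Mo.a i) (Mo.b i) t).2 ≤ (bcell (Mo.a i) (Mo.b i) t).2 + 1 := by
  have ha := Mo.ha i
  have hb := Mo.hab i
  unfold bpt bcell
  split_ifs <;> refine ⟨?_, ?_, ?_, ?_⟩ <;> simp only [] <;> omega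

/-- a cell is at its lower left corner -/
theorem gcell_at (hM : M.IsSphere) (i : Mo.I) {x y : ℕ} (hx : x < Mo.a i) (hy : y < Mo.b i)
    {p q : ℕ} (hp : x ≤ p) (hp' : p ≤ x + 1) (hq : y ≤ q) (hq' : q ≤ y + 1) :
    (glue M Mo).At (gcell Mo i x y hx hy) (gpt Mo hM i p q) := by
  rcases Nat.lt_or_ge q (y + 1) with h | h
  · have hqy : q = y := by omega
    subst hqy
    refine ⟨⟨Mo.he i x q, he_okE hM i hx (by omega)⟩, Or.inl rfl, ?_⟩
    rcases Nat.lt_or_ge p (x + 1) with h' | h'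
    · have : p = x := by omega
      subst this
      exact (he_rinc i hx (by omega)).1
    · have : p = x + 1 := by omega
      subst this
      exact (he_rinc i hx (by omega)).2
  · have hqy : q = y + 1 := by omega
    subst hqy
    have hy1 : y + 1 ≤ Mo.b i := hy
    refine ⟨⟨Mo.he i x (y + 1), he_okE hM i hx hy1⟩, Or.inr (Or.inl rfl), ?_⟩
    rcases Nat.lt_or_ge p (x + 1) with h' | h'
    · have : p = x := by omega
      subst this
      exact (he_rinc i hx hy1).1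
    · have : p = x + 1 := by omega
      subst this
      exact (he_rinc i hx hy1).2

/-- a vertex which is on a face of the mouth and is not interior is a boundary vertex -/
theorem real_at_mouth (hM : M.IsSphere) {i : Mo.I} {x : M.V} (hx : x ∈ Mo.Real) {f : M.F}
    (hf : Mo.c i f ≠ 0) (hfx : M.At f x) : ∃ t < 2 * (Mo.a i + Mo.b i), Mo.gv i t = x := by
  have hn := n_ge Mo i
  have h1 : x ∈ M.vs (M.dF (Mo.c i)) := by
    by_contra h2
    refine hx i fun g hg => ?_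
    rw [star_const hM h2 hg hfx]
    exact zmod2_ne_zero.1 hf
  obtain ⟨e, he, hex⟩ := h1
  obtain ⟨t, rfl⟩ := (Mo.dc i e).1 he
  rcases inc_cases hM (gv_succ_ne Mo i t) (Mo.ge_inc i t).1 (Mo.ge_inc i t).2 hex with rfl | rfl
  · exact ⟨_, Nat.mod_lt _ (by omega), gv_mod Mo i t⟩
  · exact ⟨_, Nat.mod_lt _ (by omega), gv_mod Mo i (t + 1)⟩

end Pool.Agent.H.MP_c8cc4c_co.Lp
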