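import Mathlib
import Pool.Agent.H.MP_c8cc4c_co.Defs

/-! # MP_c8cc4c_co, part L (section 6), file Grid: isoperimetry in a nearly square grid -/

open scoped Classical
open Finset

noncomputable section

namespace Pool.Agent.H.MP_c8cc4c_co.Lp

/-- the interior edges of the grid `[0,a] x [0,b]` at which the function `C` on the cells changes;
`(false, x, y)` is the horizontal edge from `(x,y)` to `(x+1,y)`, between the cells `(x,y-1)` and `(x,y)`;
`(true, x, y)` is the vertical edge from `(x,y)` to `(x,y+1)`, between the cells `(x-1,y)` and `(x,y)`. -/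
def gY (a b : ℕ) (C : ℕ → ℕ → ZMod 2) : Finset (Bool × ℕ × ℕ) :=
  ((univ : Finset Bool) ×ˢ (range a ×ˢ range b)).filter fun p =>
    (p.1 = false ∧ 0 < p.2.2 ∧ C p.2.1 (p.2.2 - 1) ≠ C p.2.1 p.2.2) ∨
    (p.1 = true ∧ 0 < p.2.1 ∧ C (p.2.1 - 1) p.2.2 ≠ C p.2.1 p.2.2)

theorem mem_gY_false {a b : ℕ} {C : ℕ → ℕ → ZMod 2} {x y : ℕ} :
    (false, x, y) ∈ gY a b C ↔ x < a ∧ 0 < y ∧ y < b ∧ C x (y - 1) ≠ C x y := by
  simp only [gY, mem_filter, mem_product, mem_univ, mem_range, true_and, false_and, or_false,
    Bool.false_eq_true]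
  tauto

theorem mem_gY_true {a b : ℕ} {C : ℕ → ℕ → ZMod 2} {x y : ℕ} :
    (true, x, y) ∈ gY a b C ↔ 0 < x ∧ x < a ∧ y < b ∧ C (x - 1) y ≠ C x y := by
  simp only [gY, mem_filter, mem_product, mem_univ, mem_range, true_and, false_and, false_or,
    Bool.true_eq_false]
  tauto

/-- If no horizontal edge of the column `x` is in `gY` then `C x` is constant. (Induction on `y`.) -/
theorem gY_col {a b : ℕ} {C : ℕ → ℕ → ZMod 2} {x : ℕ} (hx : x < a)
    (h : ∀ y, (false, x, y) ∉ gY a b C) {y y' : ℕ} (hy : y < b) (hy' : y' < b) :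
    C x y = C x y' := by
  have key : ∀ y, y < b → C x y = C x 0 := by
    intro y
    induction y with
    | zero => intro _; rfl
    | succ k ih =>
      intro hk
      rw [← ih (by omega)]
      by_contra hne
      exact h (k + 1) (mem_gY_false.2 ⟨hx, by omega, hk, by
        rw [Nat.add_sub_cancel]; exact fun h' => hne h'.symm⟩)
  rw [key y hy, key y' hy']

/-- If no vertical edge of the row `y` is in `gY` then `C · y` is constant. -/
theorem gY_row {a b : ℕ} {C : ℕ → ℕ → ZMod 2} {y : ℕ} (hy : y < b)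
    (h : ∀ x, (true, x, y) ∉ gY a b C) {x x' : ℕ} (hx : x < a) (hx' : x' < a) :
    C x y = C x' y := by
  have key : ∀ x, x < a → C x y = C 0 y := by
    intro x
    induction x with
    | zero => intro _; rfl
    | succ k ih =>
      intro hk
      rw [← ih (by omega)]
      by_contra hne
      exact h (k + 1) (mem_gY_true.2 ⟨by omega, hk, hy, by
        rw [Nat.add_sub_cancel]; exact fun h' => hne h'.symm⟩)
  rw [key x hx, key x' hx']

/-- affected columns -/
def gHc (a b : ℕ) (C : ℕ → ℕ → ZMod 2) : Finset ℕ :=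
  (range a).filter fun x => ∃ y, (false, x, y) ∈ gY a b C

/-- affected rows -/
def gVr (a b : ℕ) (C : ℕ → ℕ → ZMod 2) : Finset ℕ :=
  (range b).filter fun y => ∃ x, (true, x, y) ∈ gY a b C

theorem grid_card (a b : ℕ) (C : ℕ → ℕ → ZMod 2) :
    (gHc a b C).card + (gVr a b C).card ≤ (gY a b C).card := by
  have h1 : gHc a b C ⊆ ((gY a b C).filter fun p => p.1 = false).image fun p => p.2.1 := by
    intro x hx
    obtain ⟨-, y, hy⟩ := mem_filter.1 hx
    exact mem_image.2 ⟨(false, x, y), mem_filter.2 ⟨hy, rfl⟩, rfl⟩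
  have h2 : gVr a b C ⊆ ((gY a b C).filter fun p => ¬ p.1 = false).image fun p => p.2.2 := by
    intro y hy
    obtain ⟨-, x, hx⟩ := mem_filter.1 hy
    exact mem_image.2 ⟨(true, x, y), mem_filter.2 ⟨hx, by simp⟩, rfl⟩
  have h3 := (card_le_card h1).trans card_image_le
  have h4 := (card_le_card h2).trans card_image_le
  have h5 := card_filter_add_card_filter_not (s := gY a b C) (fun p => p.1 = false)
  omega

theorem grid_bd {a b : ℕ} (ha : 1 ≤ a) (hb : 1 ≤ b) (C : ℕ → ℕ → ZMod 2) (κ : ZMod 2)
    (h : ∀ x < a, ∀ y < b, C x y ≠ κ → x ∈ gHc a b C ∧ y ∈ gVr a b C) :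
    ((range (2 * (a + b))).filter fun t => C (bcell a b t).1 (bcell a b t).2 ≠ κ).card ≤
      2 * (gHc a b C).card + 2 * (gVr a b C).card := by
  have h1 : ((range (2 * (a + b))).filter fun t => C (bcell a b t).1 (bcell a b t).2 ≠ κ) ⊆
      ((gHc a b C) ∪ (gHc a b C).image fun x => 2 * a + b - 1 - x) ∪
      (((gVr a b C).image fun y => a + y) ∪ (gVr a b C).image fun y => 2 * (a + b) - 1 - y) := by
    intro t ht
    rw [mem_filter, mem_range] at ht
    obtain ⟨ht, hne⟩ := ht
    unfold bcell at hne
    split_ifs at hne with h1 h2 h3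
    · have h4 := (h t h1 0 (by omega) hne).1
      exact mem_union.2 (Or.inl (mem_union.2 (Or.inl h4)))
    · have h4 := (h (a - 1) (by omega) (t - a) (by omega) hne).2
      exact mem_union.2 (Or.inr (mem_union.2 (Or.inl (mem_image.2 ⟨t - a, h4, by omega⟩))))
    · have h4 := (h (2 * a + b - t - 1) (by omega) (b - 1) (by omega) hne).1
      exact mem_union.2 (Or.inl (mem_union.2 (Or.inr
        (mem_image.2 ⟨2 * a + b - t - 1, h4, by omega⟩))))
    · have h4 := (h 0 (by omega) (2 * (a + b) - t - 1) (by omega) hne).2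
      exact mem_union.2 (Or.inr (mem_union.2 (Or.inr
        (mem_image.2 ⟨2 * (a + b) - t - 1, h4, by omega⟩))))
  have h2 := card_le_card h1
  have h3 := card_union_le ((gHc a b C) ∪ (gHc a b C).image fun x => 2 * a + b - 1 - x)
    (((gVr a b C).image fun y => a + y) ∪ (gVr a b C).image fun y => 2 * (a + b) - 1 - y)
  have h4 := card_union_le (gHc a b C) ((gHc a b C).image fun x => 2 * a + b - 1 - x)
  have h5 := card_union_le ((gVr a b C).image fun y => a + y)
    ((gVr a b C).image fun y => 2 * (a + b) - 1 - y)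
  have h6 : ((gHc a b C).image fun x => 2 * a + b - 1 - x).card ≤ (gHc a b C).card :=
    card_image_le
  have h7 : ((gVr a b C).image fun y => a + y).card ≤ (gVr a b C).card := card_image_le
  have h8 : ((gVr a b C).image fun y => 2 * (a + b) - 1 - y).card ≤ (gVr a b C).card :=
    card_image_le
  omega

theorem grid_row {a b : ℕ} (C : ℕ → ℕ → ZMod 2) (κ : ZMod 2)
    (h : ∀ x < a, ∀ y < b, C x y ≠ κ → x ∈ gHc a b C) {x y x0 : ℕ} (hx : x < a) (hy : y < b)
    (hx0 : x0 < a) (hC : C x y ≠ κ) (hC0 : C x0 y = κ) :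
    ∃ p, (true, p, y) ∈ gY a b C ∧ (x - p) + (p - x) ≤ (gHc a b C).card := by
  rcases le_total x x0 with hle | hle
  · have hex : ∃ k, C (x + k) y = κ := ⟨x0 - x, by rw [Nat.add_sub_cancel' hle]; exact hC0⟩
    have hmin := fun k hk => Nat.find_min hex (m := k) hk
    have hspec := Nat.find_spec hex
    have hkle : Nat.find hex ≤ x0 - x :=
      Nat.find_min' hex (by rw [Nat.add_sub_cancel' hle]; exact hC0)
    generalize Nat.find hex = k at hmin hspec hkle
    have hk0 : k ≠ 0 := by
      rintro rfl
      exact hC (by simpa using hspec)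
    refine ⟨x + k, mem_gY_true.2 ⟨by omega, by omega, hy, ?_⟩, ?_⟩
    · rw [hspec]
      have h1 := hmin (k - 1) (by omega)
      have h2 : x + (k - 1) = x + k - 1 := by omega
      rw [h2] at h1
      exact h1
    · have h1 : Ico x (x + k) ⊆ gHc a b C := by
        intro z hz
        rw [mem_Ico] at hz
        have h2 := hmin (z - x) (by omega)
        rw [Nat.add_sub_cancel' hz.1] at h2
        exact h z (by omega) y hy h2
      have h2 := card_le_card h1
      rw [Nat.card_Ico] at h2
      omega
  · have hex : ∃ k, C (x - k) y = κ := ⟨x - x0, by rw [Nat.sub_sub_self hle]; exact hC0⟩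
    have hmin := fun k hk => Nat.find_min hex (m := k) hk
    have hspec := Nat.find_spec hex
    have hkle : Nat.find hex ≤ x - x0 :=
      Nat.find_min' hex (by rw [Nat.sub_sub_self hle]; exact hC0)
    generalize Nat.find hex = k at hmin hspec hkle
    have hk0 : k ≠ 0 := by
      rintro rfl
      exact hC (by simpa using hspec)
    refine ⟨x - k + 1, mem_gY_true.2 ⟨by omega, by omega, hy, ?_⟩, ?_⟩
    · rw [Nat.add_sub_cancel, hspec]
      have h1 := hmin (k - 1) (by omega)
      have h2 : x - (k - 1) = x - k + 1 := by omega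
      rw [h2] at h1
      exact fun h' => h1 h'.symm
    · have h1 : Ico (x - k + 1) (x + 1) ⊆ gHc a b C := by
        intro z hz
        rw [mem_Ico] at hz
        have h2 := hmin (x - z) (by omega)
        rw [Nat.sub_sub_self (by omega)] at h2
        exact h z (by omega) y hy h2
      have h2 := card_le_card h1
      rw [Nat.card_Ico] at h2
      omega

/-- ISOPERIMETRY. Let `m = |gY|`. There is a value `κ` such that `C ≠ κ` at no more than `3 m` of the
`2 (a + b)` boundary cells (counted with the boundary edges), and every cell with `C ≠ κ` is within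
distance `3 m` of an edge of `gY`.

PROOF. Call a column `x < a` affected if `(false, x, y) ∈ gY` for some `y`, a row `y < b` affected if
`(true, x, y) ∈ gY` for some `x`; `n_h`, `n_v` = numbers of affected columns, rows; `n_h + n_v ≤ m`
(choose an edge for every affected column and row: injective).
Case 1: there are an unaffected column `x0` and an unaffected row `y0`. `κ := C x0 y0`. By `gY_col`
and `gY_row` a cell `(x, y)` with `C x y ≠ κ` is in an affected column and in an affected row. The
boundary cell number `t` is `(t,0)`, `(a-1,t-a)`, `(2a+b-t-1,b-1)` or `(0,2(a+b)-t-1)`; in the first and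
third case count it by its column, in the others by its row: at most `2 n_h + 2 n_v ≤ 2 m` values
`t`. If `C x y ≠ κ` and (say) `x < x0`: let `p` be the first number `> x` with `C p y = κ` (`p ≤ x0` since
`C x0 y = κ`); `(true, p, y) ∈ gY`, and all columns `x, …, p-1` are affected, so
`p - x ≤ n_h ≤ m`. Similarly for `x > x0` with the last `p' < x` with `C p' y = κ`, `p = p' + 1`.
Case 2: all columns are affected: `a ≤ m`. The two numbers of `t` with `C ≠ 0`, `C ≠ 1` at the boundary
cell have sum `2 (a + b)`, so one of them is at most `a + b ≤ 2 a + 1 ≤ 3 a ≤ 3 m`. There is an edge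
`(s, p, q) ∈ gY` (`m ≥ a ≥ 1`), `|x - p| + |y - q| ≤ (a - 1) + (b - 1) ≤ 3 m`.
Case 3: all rows are affected: `b ≤ m`, `a + b ≤ 2 b`; same argument. -/
theorem grid_iso {a b : ℕ} (ha : 1 ≤ a) (hab : a ≤ b) (hba : b ≤ a + 1) (C : ℕ → ℕ → ZMod 2) :
    ∃ κ : ZMod 2,
      ((range (2 * (a + b))).filter fun t => C (bcell a b t).1 (bcell a b t).2 ≠ κ).card ≤
        3 * (gY a b C).card ∧
      ∀ x < a, ∀ y < b, C x y ≠ κ → ∃ s p q, (s, p, q) ∈ gY a b C ∧
        (x - p) + (p - x) + ((y - q) + (q - y)) ≤ 3 * (gY a b C).card := by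
  have hcard := grid_card a b C
  by_cases hcase : (∃ x0 < a, x0 ∉ gHc a b C) ∧ ∃ y0 < b, y0 ∉ gVr a b C
  · obtain ⟨⟨x0, hx0, hx0'⟩, y0, hy0, hy0'⟩ := hcase
    have hcol : ∀ x < a, x ∉ gHc a b C → ∀ y < b, C x y = C x0 y0 := by
      intro x hx hx' y hy
      have h1 : C x y = C x y0 := gY_col hx (fun z hz =>
        hx' (mem_filter.2 ⟨mem_range.2 hx, z, hz⟩)) hy hy0
      have h2 : C x y0 = C x0 y0 := gY_row hy0 (fun z hz =>
        hy0' (mem_filter.2 ⟨mem_range.2 hy0, z, hz⟩)) hx hx0
      rw [h1, h2]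
    have hrow : ∀ y < b, y ∉ gVr a b C → ∀ x < a, C x y = C x0 y0 := by
      intro y hy hy' x hx
      have h1 : C x y = C x0 y := gY_row hy (fun z hz =>
        hy' (mem_filter.2 ⟨mem_range.2 hy, z, hz⟩)) hx hx0
      have h2 : C x0 y = C x0 y0 := gY_col hx0 (fun z hz =>
        hx0' (mem_filter.2 ⟨mem_range.2 hx0, z, hz⟩)) hy hy0
      rw [h1, h2]
    have hboth : ∀ x < a, ∀ y < b, C x y ≠ C x0 y0 → x ∈ gHc a b C ∧ y ∈ gVr a b C := by
      intro x hx y hy hne
      constructor
      · by_contra h
        exact hne (hcol x hx h y hy)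
      · by_contra h
        exact hne (hrow y hy h x hx)
    refine ⟨C x0 y0, ?_, ?_⟩
    · have h1 := grid_bd ha (by omega) C (C x0 y0) hboth
      omega
    · intro x hx y hy hne
      obtain ⟨p, hp, hp'⟩ := grid_row C (C x0 y0) (fun x hx y hy h => (hboth x hx y hy h).1)
        hx hy hx0 hne (hcol x0 hx0 hx0' y hy)
      exact ⟨true, p, y, hp, by omega⟩
  · have hm : a + b ≤ 3 * (gY a b C).card := by
      by_cases h1 : ∃ x0 < a, x0 ∉ gHc a b C
      · have h2 : ¬ ∃ y0 < b, y0 ∉ gVr a b C := fun h2 => hcase ⟨h1, h2⟩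
        push Not at h2
        have h3 : range b ⊆ gVr a b C := fun y hy => h2 y (mem_range.1 hy)
        have h4 := card_le_card h3
        rw [card_range] at h4
        omega
      · push Not at h1
        have h3 : range a ⊆ gHc a b C := fun y hy => h1 y (mem_range.1 hy)
        have h4 := card_le_card h3
        rw [card_range] at h4
        omega
    have hdist : ∀ x < a, ∀ y < b, ∃ s p q, (s, p, q) ∈ gY a b C ∧
        (x - p) + (p - x) + ((y - q) + (q - y)) ≤ 3 * (gY a b C).card := by
      intro x hx y hy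
      have hne : (gY a b C).Nonempty := by
        rw [← card_pos]
        omega
      obtain ⟨⟨s, p, q⟩, hpq⟩ := hne
      refine ⟨s, p, q, hpq, ?_⟩
      have h1 : p < a ∧ q < b := by
        cases s with
        | false => obtain ⟨h1, -, h3, -⟩ := mem_gY_false.1 hpq; exact ⟨h1, h3⟩
        | true => obtain ⟨-, h2, h3, -⟩ := mem_gY_true.1 hpq; exact ⟨h2, h3⟩
      omega
    have hsum : ((range (2 * (a + b))).filter fun t =>
          C (bcell a b t).1 (bcell a b t).2 ≠ 0).card +
        ((range (2 * (a + b))).filter fun t =>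
          C (bcell a b t).1 (bcell a b t).2 ≠ 1).card = 2 * (a + b) := by
      have h1 := card_filter_add_card_filter_not (s := range (2 * (a + b)))
        (fun t => C (bcell a b t).1 (bcell a b t).2 ≠ 0)
      rw [card_range] at h1
      have h2 : ((range (2 * (a + b))).filter fun t =>
          ¬ C (bcell a b t).1 (bcell a b t).2 ≠ 0) = ((range (2 * (a + b))).filter fun t =>
          C (bcell a b t).1 (bcell a b t).2 ≠ 1) := by
        refine filter_congr fun t _ => ?_
        generalize C (bcell a b t).1 (bcell a b t).2 = v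
        revert v
        decide
      rw [h2] at h1
      exact h1
    rcases le_total ((range (2 * (a + b))).filter fun t =>
          C (bcell a b t).1 (bcell a b t).2 ≠ 0).card (a + b) with h | h
    · exact ⟨0, by omega, fun x hx y hy _ => hdist x hx y hy⟩
    · exact ⟨1, by omega, fun x hx y hy _ => hdist x hx y hy⟩

end Pool.Agent.H.MP_c8cc4c_co.Lp
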