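import Mathlib
import Pool.Agent.H.MP_c8cc4c_co.L.Grid
import Pool.Agent.H.MP_c8cc4c_co.L.GlueA

/-! # MP_c8cc4c_co, part L (section 6), file Chat: the real version of a chain of the glued complex -/

open scoped Classical
open Finset

noncomputable section

namespace Pool.Agent.H.MP_c8cc4c_co.Lp

variable {M : PC} {Mo : Mouths M}

/-- the value of the chain `c` at the grid cell `(x, y)` of the mouth `i` -/
def gval (Mo : Mouths M) (c : (glue M Mo).F → ZMod 2) (i : Mo.I) (x y : ℕ) : ZMod 2 :=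
  if h : x < Mo.a i ∧ y < Mo.b i then c ⟨Sum.inr (i, x, y), h⟩ else 0

theorem gval_eq (c : (glue M Mo).F → ZMod 2) (i : Mo.I) {x y : ℕ} (hx : x < Mo.a i)
    (hy : y < Mo.b i) : gval Mo c i x y = c (gcell Mo i x y hx hy) := by
  unfold gval
  rw [dif_pos ⟨hx, hy⟩]
  rfl

/-- the majority value in the mouth `i` -/
def kap (Mo : Mouths M) (c : (glue M Mo).F → ZMod 2) (i : Mo.I) : ZMod 2 :=
  Classical.choose (grid_iso (Mo.ha i) (Mo.hab i) (Mo.hba i) (gval Mo c i))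

theorem kap_card (c : (glue M Mo).F → ZMod 2) (i : Mo.I) :
    ((range (2 * (Mo.a i + Mo.b i))).filter fun t =>
      gval Mo c i (bcell (Mo.a i) (Mo.b i) t).1 (bcell (Mo.a i) (Mo.b i) t).2 ≠ kap Mo c i).card ≤
        3 * (gY (Mo.a i) (Mo.b i) (gval Mo c i)).card :=
  (Classical.choose_spec (grid_iso (Mo.ha i) (Mo.hab i) (Mo.hba i) (gval Mo c i))).1

theorem kap_near (c : (glue M Mo).F → ZMod 2) (i : Mo.I) {x y : ℕ} (hx : x < Mo.a i)
    (hy : y < Mo.b i) (h : gval Mo c i x y ≠ kap Mo c i) :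
    ∃ s p q, (s, p, q) ∈ gY (Mo.a i) (Mo.b i) (gval Mo c i) ∧
        (x - p) + (p - x) + ((y - q) + (q - y)) ≤
          3 * (gY (Mo.a i) (Mo.b i) (gval Mo c i)).card :=
  (Classical.choose_spec (grid_iso (Mo.ha i) (Mo.hab i) (Mo.hba i) (gval Mo c i))).2 x hx y hy h

/-- the real version of `c`: constant in every mouth -/
def chat (Mo : Mouths M) (c : (glue M Mo).F → ZMod 2) (f : M.F) : ZMod 2 :=
  if h : ∀ i, Mo.c i f = 0 then c ⟨Sum.inl f, h⟩
  else kap Mo c (Classical.choose (not_forall.1 h))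

theorem chat_real (c : (glue M Mo).F → ZMod 2) {f : M.F} (h : ∀ i, Mo.c i f = 0) :
    chat Mo c f = c ⟨Sum.inl f, h⟩ := by
  unfold chat
  rw [dif_pos h]

theorem chat_mouth (c : (glue M Mo).F → ZMod 2) {f : M.F} {i : Mo.I} (h : Mo.c i f ≠ 0) :
    chat Mo c f = kap Mo c i := by
  unfold chat
  have h1 : ¬ ∀ i, Mo.c i f = 0 := fun h2 => h (h2 i)
  rw [dif_neg h1]
  have h2 := Classical.choose_spec (not_forall.1 h1)
  rw [Mo.disj _ i f h2 h]

/-- the edges in `gY` are in the boundary of `c` -/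
theorem gY_dF (hN : (glue M Mo).IsSphere) (c : (glue M Mo).F → ZMod 2) (i : Mo.I)
    {s : Bool} {x y : ℕ} (h : (s, x, y) ∈ gY (Mo.a i) (Mo.b i) (gval Mo c i)) :
    ∃ hok : Mo.okE (Sum.inr (i, s, x, y)),
      (glue M Mo).dF c ⟨Sum.inr (i, s, x, y), hok⟩ ≠ 0 := by
  cases s with
  | false =>
    obtain ⟨hx, hy0, hy, hne⟩ := mem_gY_false.1 h
    refine ⟨⟨hx, hy0, hy⟩, fun h0 => hne ?_⟩
    rw [gval_eq c i hx (show y - 1 < Mo.b i by omega), gval_eq c i hx hy]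
    have hhe : Mo.he i x y = Sum.inr (i, false, x, y) := by
      unfold Mouths.he
      rw [if_neg (by omega), if_neg (by omega)]
    refine (dF_zero_iff hN c).1 h0 _ _ ?_ ?_
    · refine Or.inr (Or.inl ?_)
      have h1 : y - 1 + 1 = y := by omega
      rw [h1, hhe]
    · exact Or.inl hhe.symm
  | true =>
    obtain ⟨hx0, hx, hy, hne⟩ := mem_gY_true.1 h
    refine ⟨⟨hx0, hx, hy⟩, fun h0 => hne ?_⟩
    rw [gval_eq c i (show x - 1 < Mo.a i by omega) hy, gval_eq c i hx hy]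
    have hve : Mo.ve i x y = Sum.inr (i, true, x, y) := by
      unfold Mouths.ve
      rw [if_neg (by omega), if_neg (by omega)]
    refine (dF_zero_iff hN c).1 h0 _ _ ?_ ?_
    · refine Or.inr (Or.inr (Or.inr ?_))
      have h1 : x - 1 + 1 = x := by omega
      rw [h1, hve]
    · exact Or.inr (Or.inr (Or.inl hve.symm))

/-- a face at a real edge has a counterpart in the glued complex -/
theorem face_lift (hM : M.IsSphere) (c : (glue M Mo).F → ZMod 2) {e : M.E}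
    (hok : Mo.okE (Sum.inl e)) {f : M.F} (hf : M.bd f e) :
    ∃ F : (glue M Mo).F, (glue M Mo).bd F ⟨Sum.inl e, hok⟩ ∧
      (c F = chat Mo c f ∨ ∃ i t, t < 2 * (Mo.a i + Mo.b i) ∧ Mo.ge i t = e ∧
        gval Mo c i (bcell (Mo.a i) (Mo.b i) t).1 (bcell (Mo.a i) (Mo.b i) t).2 ≠
          kap Mo c i) := by
  by_cases h : ∀ i, Mo.c i f = 0
  · exact ⟨⟨Sum.inl f, h⟩, ⟨e, hf, rfl⟩, Or.inl (chat_real c h).symm⟩
  · obtain ⟨i, hi⟩ := not_forall.1 h
    have hne : M.dF (Mo.c i) e ≠ 0 := by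
      intro h0
      obtain ⟨x, hx, hxi⟩ := Mo.edge i e fun g hg => by
        rw [← (dF_zero_iff hM _).1 h0 f g hf hg]
        exact zmod2_ne_zero.1 hi
      exact hok x hx i hxi
    obtain ⟨t, ht⟩ := (Mo.dc i e).1 hne
    have hn := n_ge Mo i
    have htlt : t % (2 * (Mo.a i + Mo.b i)) < 2 * (Mo.a i + Mo.b i) := Nat.mod_lt _ (by omega)
    rw [← ge_mod Mo i t] at ht
    generalize t % (2 * (Mo.a i + Mo.b i)) = t' at ht htlt
    obtain ⟨h1, h2⟩ := bcell_lt i htlt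
    refine ⟨gcell Mo i _ _ h1 h2, ?_, ?_⟩
    · have h3 := bcell_bd i htlt
      rw [ht] at h3
      exact h3
    · by_cases h4 : gval Mo c i (bcell (Mo.a i) (Mo.b i) t').1 (bcell (Mo.a i) (Mo.b i) t').2 =
        kap Mo c i
      · left
        rw [← gval_eq c i h1 h2, chat_mouth c hi, h4]
      · exact Or.inr ⟨i, t', htlt, ht, h4⟩

/-- the boundary of `chat c` -/
theorem chat_supp (hM : M.IsSphere) (hN : (glue M Mo).IsSphere) (c : (glue M Mo).F → ZMod 2)
    {e : M.E} (he : M.dF (chat Mo c) e ≠ 0) :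
    (∃ hok : Mo.okE (Sum.inl e), (glue M Mo).dF c ⟨Sum.inl e, hok⟩ ≠ 0) ∨
    ∃ i t, t < 2 * (Mo.a i + Mo.b i) ∧ Mo.ge i t = e ∧
        gval Mo c i (bcell (Mo.a i) (Mo.b i) t).1 (bcell (Mo.a i) (Mo.b i) t).2 ≠
          kap Mo c i := by
  obtain ⟨f, g, hf, hg, hcf, hcg⟩ := (dF_ne_zero_iff hM _).1 he
  have hok : Mo.okE (Sum.inl e) := by
    intro x hx i hxi
    have h1 : Mo.c i f = 1 := hxi f ⟨e, hf, hx⟩
    have h2 : Mo.c i g = 1 := hxi g ⟨e, hg, hx⟩
    rw [chat_mouth c (i := i) (by rw [h1]; decide)] at hcf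
    rw [chat_mouth c (i := i) (by rw [h2]; decide), hcf] at hcg
    exact absurd hcg (by decide)
  by_cases h : (glue M Mo).dF c ⟨Sum.inl e, hok⟩ = 0
  · obtain ⟨F, hF, hF'⟩ := face_lift hM c hok hf
    obtain ⟨G, hG, hG'⟩ := face_lift hM c hok hg
    rcases hF' with h1 | h1
    · rcases hG' with h2 | h2
      · exfalso
        have h3 := (dF_zero_iff hN c).1 h F G hF hG
        rw [h1, h2, hcf, hcg] at h3
        exact absurd h3 (by decide)
      · exact Or.inr h2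
    · exact Or.inr h1
  · exact Or.inl ⟨hok, h⟩

/-- the boundary of `chat c` has at most three times as many edges as the boundary of `c` -/
theorem wt_chat (hM : M.IsSphere) (hN : (glue M Mo).IsSphere) (c : (glue M Mo).F → ZMod 2) :
    M.wt (M.dF (chat Mo c)) ≤ 3 * (glue M Mo).wt ((glue M Mo).dF c) := by
  obtain ⟨A, hA⟩ : ∃ A : Finset M.E, A = univ.filter fun e =>
    ∃ hok : Mo.okE (Sum.inl e), (glue M Mo).dF c ⟨Sum.inl e, hok⟩ ≠ 0 := ⟨_, rfl⟩
  have h1 : (univ.filter fun e => M.dF (chat Mo c) e ≠ 0) ⊆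
      A ∪ univ.biUnion fun i => ((range (2 * (Mo.a i + Mo.b i))).filter fun t =>
        gval Mo c i (bcell (Mo.a i) (Mo.b i) t).1 (bcell (Mo.a i) (Mo.b i) t).2 ≠
          kap Mo c i).image (Mo.ge i) := by
    intro e he
    rw [mem_filter] at he
    rw [mem_union]
    rcases chat_supp hM hN c he.2 with h2 | ⟨i, t, ht, hte, h2⟩
    · left
      rw [hA, mem_filter]
      exact ⟨mem_univ _, h2⟩
    · right
      rw [mem_biUnion]
      refine ⟨i, mem_univ _, mem_image.2 ⟨t, mem_filter.2 ⟨mem_range.2 ht, h2⟩, hte⟩⟩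
  have h2 : M.wt (M.dF (chat Mo c)) ≤
      A.card + ∑ i, 3 * (gY (Mo.a i) (Mo.b i) (gval Mo c i)).card := by
    refine (card_le_card h1).trans ((card_union_le _ _).trans ?_)
    refine Nat.add_le_add_left ?_ _
    refine card_biUnion_le.trans (sum_le_sum fun i _ => ?_)
    exact card_image_le.trans (kap_card c i)
  have h3 : A.card + ∑ i, (gY (Mo.a i) (Mo.b i) (gval Mo c i)).card ≤
      (glue M Mo).wt ((glue M Mo).dF c) := by
    have e1 : A.card = (A.image (Sum.inl : M.E → M.E ⊕ (Mo.I × Bool × ℕ × ℕ))).card :=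
      (card_image_of_injective _ Sum.inl_injective).symm
    have e2 : ∑ i, (gY (Mo.a i) (Mo.b i) (gval Mo c i)).card =
        ((univ.biUnion fun i => (gY (Mo.a i) (Mo.b i) (gval Mo c i)).image
          fun p => (Sum.inr (i, p) : M.E ⊕ (Mo.I × Bool × ℕ × ℕ)))).card := by
      rw [card_biUnion]
      · refine sum_congr rfl fun i _ => (card_image_of_injective _ ?_).symm
        intro p q hpq
        simpa using hpq
      · intro i _ j _ hij
        rw [Function.onFun, disjoint_left]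
        intro z hz hz'
        obtain ⟨p, -, rfl⟩ := mem_image.1 hz
        obtain ⟨q, -, hq⟩ := mem_image.1 hz'
        simp only [Sum.inr.injEq, Prod.mk.injEq] at hq
        exact hij hq.1.symm
    rw [e1, e2, ← card_union_of_disjoint]
    · have e3 : (A.image (Sum.inl : M.E → M.E ⊕ (Mo.I × Bool × ℕ × ℕ))) ∪
          (univ.biUnion fun i => (gY (Mo.a i) (Mo.b i) (gval Mo c i)).image
            fun p => (Sum.inr (i, p) : M.E ⊕ (Mo.I × Bool × ℕ × ℕ))) ⊆
          ((univ : Finset (glue M Mo).E).filter fun e => (glue M Mo).dF c e ≠ 0).image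
            (fun e => (e.1 : M.E ⊕ (Mo.I × Bool × ℕ × ℕ))) := by
        intro z hz
        rcases mem_union.1 hz with hz | hz
        · obtain ⟨e, he, rfl⟩ := mem_image.1 hz
          rw [hA, mem_filter] at he
          obtain ⟨-, hok, h⟩ := he
          exact mem_image.2 ⟨⟨Sum.inl e, hok⟩, mem_filter.2 ⟨mem_univ _, h⟩, rfl⟩
        · obtain ⟨i, -, hz⟩ := mem_biUnion.1 hz
          obtain ⟨⟨s, x, y⟩, hp, rfl⟩ := mem_image.1 hz
          obtain ⟨hok, h⟩ := gY_dF hN c i hp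
          exact mem_image.2 ⟨⟨Sum.inr (i, s, x, y), hok⟩, mem_filter.2 ⟨mem_univ _, h⟩, rfl⟩
      exact (card_le_card e3).trans card_image_le
    · rw [disjoint_left]
      intro z hz hz'
      obtain ⟨e, -, rfl⟩ := mem_image.1 hz
      obtain ⟨i, -, hz'⟩ := mem_biUnion.1 hz'
      obtain ⟨q, -, hq⟩ := mem_image.1 hz'
      exact absurd hq (by simp)
  rw [← mul_sum] at h2
  omega

/-- the vertices on the boundary of `chat c` are real vertices in `Q` -/
theorem chat_vs (hM : M.IsSphere) (hN : (glue M Mo).IsSphere) {Q : Set M.V} {l1 : ℕ}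
    (hC : CutOut M Q l1 Mo) (c : (glue M Mo).F → ZMod 2)
    (hcO : ∀ v ∈ (glue M Mo).vs ((glue M Mo).dF c), v ∉ gO Mo Q)
    {v : M.V} (hv : v ∈ M.vs (M.dF (chat Mo c))) : v ∈ Q ∩ Mo.Real := by
  obtain ⟨e, he, hev⟩ := hv
  rcases chat_supp hM hN c he with ⟨hok, h⟩ | ⟨i, t, ht, rfl, h⟩
  · have h1 := hok v hev
    refine ⟨?_, h1⟩
    by_contra h2
    exact hcO (rv Mo v h1) ⟨⟨Sum.inl e, hok⟩, h, ⟨v, hev, rfl⟩⟩ ⟨v, rfl, h2⟩
  · rcases inc_cases hM (gv_succ_ne Mo i t) (Mo.ge_inc i t).1 (Mo.ge_inc i t).2 hev with rfl | rfl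
    · exact ⟨gv_mem hM hC i t, gv_real hM i t⟩
    · exact ⟨gv_mem hM hC i (t + 1), gv_real hM i (t + 1)⟩

theorem gY_card_le (hN : (glue M Mo).IsSphere) (c : (glue M Mo).F → ZMod 2) (i : Mo.I) :
    (gY (Mo.a i) (Mo.b i) (gval Mo c i)).card ≤ (glue M Mo).wt ((glue M Mo).dF c) := by
  have e3 : ((gY (Mo.a i) (Mo.b i) (gval Mo c i)).image
            fun p => (Sum.inr (i, p) : M.E ⊕ (Mo.I × Bool × ℕ × ℕ))) ⊆
          ((univ : Finset (glue M Mo).E).filter fun e => (glue M Mo).dF c e ≠ 0).image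
            (fun e => (e.1 : M.E ⊕ (Mo.I × Bool × ℕ × ℕ))) := by
    intro z hz
    obtain ⟨⟨s, x, y⟩, hp, rfl⟩ := mem_image.1 hz
    obtain ⟨hok, h⟩ := gY_dF hN c i hp
    exact mem_image.2 ⟨⟨Sum.inr (i, s, x, y), hok⟩, mem_filter.2 ⟨mem_univ _, h⟩, rfl⟩
  have e4 := (card_le_card e3).trans card_image_le
  rw [card_image_of_injective] at e4
  · exact e4
  · intro p q hpq
    simpa using hpq

/-- a corner of a cell with the minority value is near the boundary of `c` -/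
theorem cell_near (hM : M.IsSphere) (hN : (glue M Mo).IsSphere) {Q : Set M.V} {l1 : ℕ}
    (hC : CutOut M Q l1 Mo) (c : (glue M Mo).F → ZMod 2) (i : Mo.I) {x y : ℕ} (hx : x < Mo.a i)
    (hy : y < Mo.b i) (h : gval Mo c i x y ≠ kap Mo c i) {p q : ℕ} (hp : x ≤ p)
    (hp' : p ≤ x + 1) (hq : y ≤ q) (hq' : q ≤ y + 1) :
    ∃ u ∈ (glue M Mo).vs ((glue M Mo).dF c), Near (glue M Mo).graph (gO Mo Q)ᶜ
      (3 * (glue M Mo).wt ((glue M Mo).dF c) + 2) (gpt Mo hM i p q) u := by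
  obtain ⟨s, p', q', hY, hd⟩ := kap_near c i hx hy h
  obtain ⟨hok, hdF⟩ := gY_dF hN c i hY
  have hcard := gY_card_le hN c i
  have hpa : p' < Mo.a i ∧ q' < Mo.b i := by
    cases s with
    | false => obtain ⟨h1, h2, h3, -⟩ := mem_gY_false.1 hY; exact ⟨h1, h3⟩
    | true => obtain ⟨h1, h2, h3, -⟩ := mem_gY_true.1 hY; exact ⟨h2, h3⟩
  refine ⟨gpt Mo hM i p' q', ⟨⟨Sum.inr (i, s, p', q'), hok⟩, hdF, ?_⟩, ?_⟩
  · cases s with
    | false => exact Or.inl rfl
    | true => exact Or.inl rfl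
  · refine near_mono (gpt_near hM hC i (x := p) (y := q) (x' := p') (y' := q') (by omega)
      (by omega) (by omega) (by omega)) ?_ subset_rfl
    omega

/-- the vertices on the boundary of `chat c` are near the boundary of `c` -/
theorem chat_vs_near (hM : M.IsSphere) (hN : (glue M Mo).IsSphere) {Q : Set M.V} {l1 : ℕ}
    (hC : CutOut M Q l1 Mo) (c : (glue M Mo).F → ZMod 2)
    (hcO : ∀ v ∈ (glue M Mo).vs ((glue M Mo).dF c), v ∉ gO Mo Q)
    {v : M.V} (hv : v ∈ M.vs (M.dF (chat Mo c))) (hvr : v ∈ Mo.Real) :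
    ∃ u ∈ (glue M Mo).vs ((glue M Mo).dF c), Near (glue M Mo).graph (gO Mo Q)ᶜ
      (3 * (glue M Mo).wt ((glue M Mo).dF c) + 3) (rv Mo v hvr) u := by
  have hvQ := chat_vs hM hN hC c hcO hv
  obtain ⟨e, he, hev⟩ := hv
  rcases chat_supp hM hN c he with ⟨hok, h⟩ | ⟨i, t, ht, rfl, h⟩
  · exact ⟨rv Mo v hvr, ⟨⟨Sum.inl e, hok⟩, h, ⟨v, hev, rfl⟩⟩,
      near_mono (near_refl (rv_not_gO hvr hvQ.1)) (by omega) subset_rfl⟩
  · obtain ⟨h1, h2⟩ := bcell_lt i ht
    obtain ⟨b1, b2, b3, b4⟩ := bpt_bcell i ht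
    obtain ⟨u, hu, hun⟩ := cell_near hM hN hC c i h1 h2 h b1 b2 b3 b4
    have h3 : gpt Mo hM i (bpt (Mo.a i) (Mo.b i) t).1 (bpt (Mo.a i) (Mo.b i) t).2 =
        rv Mo (Mo.gv i t) (gv_real hM i t) := Subtype.ext (gp_bpt i ht)
    rw [h3] at hun
    refine ⟨u, hu, ?_⟩
    rcases inc_cases hM (gv_succ_ne Mo i t) (Mo.ge_inc i t).1 (Mo.ge_inc i t).2 hev with rfl | rfl
    · exact near_mono hun (by omega) subset_rfl
    · have h4 : Near (glue M Mo).graph (gO Mo Q)ᶜ 1 (rv Mo (Mo.gv i (t + 1)) hvr)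
          (rv Mo (Mo.gv i t) (gv_real hM i t)) :=
        near_rv hM (near_adj ⟨gv_mem hM hC i (t + 1), hvr⟩
          ⟨gv_mem hM hC i t, gv_real hM i t⟩ (inc_adj hM (Mo.ge_inc i t).2 (Mo.ge_inc i t).1
            (gv_succ_ne Mo i t).symm)) hvr (gv_real hM i t)
      exact near_mono (near_trans h4 hun) (by omega) subset_rfl

end Pool.Agent.H.MP_c8cc4c_co.Lp
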