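import Mathlib
import Pool.Agent.H.MP_c8cc4c_co.L.Chat

/-! # MP_c8cc4c_co, part L (section 6), file Deep: deep vertices of the glued complex give deep real ones -/

open scoped Classical
open Finset

noncomputable section

namespace Pool.Agent.H.MP_c8cc4c_co.Lp

variable {M : PC} {Mo : Mouths M}

/-- numbers `t < n` at cyclic distance at most `2 r` from `t0` -/
theorem deep_count (n r t0 : ℕ) (ht0 : t0 < n) (S : Finset ℕ)
    (hS : ∀ t ∈ S, t < n ∧ ((t - t0) + (t0 - t) ≤ 2 * r ∨ n - ((t - t0) + (t0 - t)) ≤ 2 * r)) :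
    S.card ≤ 8 * r + 1 := by
  have h1 : S ⊆ Icc (t0 - 2 * r) (t0 + 2 * r) ∪ (Ico (n - 2 * r) n ∪ range (2 * r)) := by
    intro t ht
    obtain ⟨h1, h2⟩ := hS t ht
    simp only [mem_union, mem_Icc, mem_Ico, mem_range]
    omega
  refine (card_le_card h1).trans ((card_union_le _ _).trans ?_)
  have h2 := card_union_le (Ico (n - 2 * r) n) (range (2 * r))
  rw [Nat.card_Ico, card_range] at h2
  rw [Nat.card_Icc]
  omega

/-- if all vertices of the boundary of a mouth are near a small set then the mouth is small -/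
theorem mouth_small {Q : Set M.V} {l1 : ℕ} (hC : CutOut M Q l1 Mo)
    (i : Mo.I) (r : ℕ) (Z : Finset M.V)
    (h : ∀ t < 2 * (Mo.a i + Mo.b i), ∃ v ∈ Z, Near M.graph (Q ∩ Mo.Real) r (Mo.gv i t) v) :
    2 * (Mo.a i + Mo.b i) ≤ (8 * r + 1) * Z.card := by
  have h' : ∀ t : ℕ, ∃ v : M.V, t < 2 * (Mo.a i + Mo.b i) →
      v ∈ Z ∧ Near M.graph (Q ∩ Mo.Real) r (Mo.gv i t) v := by
    intro t
    by_cases ht : t < 2 * (Mo.a i + Mo.b i)
    · obtain ⟨v, hv, hn⟩ := h t ht
      exact ⟨v, fun _ => ⟨hv, hn⟩⟩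
    · exact ⟨Mo.gv i 0, fun h => absurd h ht⟩
  choose φ hφ using h'
  have h1 := Finset.card_le_mul_card_image_of_maps_to (s := range (2 * (Mo.a i + Mo.b i)))
    (t := Z) (f := φ) (fun t ht => (hφ t (mem_range.1 ht)).1) (8 * r + 1) ?_
  · rw [card_range] at h1
    exact h1
  · intro v hv
    by_cases hne : ((range (2 * (Mo.a i + Mo.b i))).filter fun t => φ t = v).Nonempty
    · obtain ⟨t0, ht0⟩ := hne
      rw [mem_filter, mem_range] at ht0
      refine deep_count (2 * (Mo.a i + Mo.b i)) r t0 ht0.1 _ fun t ht => ?_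
      rw [mem_filter, mem_range] at ht
      refine ⟨ht.1, ?_⟩
      have e1 := (hφ t ht.1).2
      have e2 := (hφ t0 ht0.1).2
      rw [ht.2] at e1
      rw [ht0.2] at e2
      rcases le_total t t0 with hle | hle
      · have e3 := near_trans e1 (near_symm e2)
        have e4 := hC.iso i t t0 (r + r) hle ht0.1
          (near_mono e3 le_rfl Set.inter_subset_left)
        unfold Mouths.n at e4
        omega
      · have e3 := near_trans e2 (near_symm e1)
        have e4 := hC.iso i t0 t (r + r) hle ht.1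
          (near_mono e3 le_rfl Set.inter_subset_left)
        unfold Mouths.n at e4
        omega
    · rw [not_nonempty_iff_eq_empty] at hne
      rw [hne, card_empty]
      omega

theorem rhoP_ge (l : ℕ) : rho (3 * l) + 3 * l + 3 ≤ rhoP l := by
  unfold rhoP
  have : 0 ≤ 6 * l * (4 * rho (3 * l) + 2) := Nat.zero_le _
  omega

/-- DEEP VERTICES. -/
theorem deep_vertex (hM : M.IsSphere) (hN : (glue M Mo).IsSphere) {Q : Set M.V} {l1 : ℕ}
    (hC : CutOut M Q l1 Mo) (c : (glue M Mo).F → ZMod 2)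
    (hcO : ∀ v ∈ (glue M Mo).vs ((glue M Mo).dF c), v ∉ gO Mo Q) (l : ℕ)
    (hwt : (glue M Mo).wt ((glue M Mo).dF c) ≤ l) (κ : ZMod 2) (X : (glue M Mo).V)
    (hXO : X ∉ gO Mo Q) (hX : ∀ f, (glue M Mo).At f X → c f = κ)
    (hfar : ∀ v ∈ (glue M Mo).vs ((glue M Mo).dF c),
      ¬ Near (glue M Mo).graph (gO Mo Q)ᶜ (rhoP l) X v) :
    ∃ x ∈ Q ∩ Mo.Real, (∀ f, M.At f x → chat Mo c f = κ) ∧
      ∀ v ∈ M.vs (M.dF (chat Mo c)), ¬ Near M.graph (Q ∩ Mo.Real) (rho (3 * l)) x v := by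
  have hrho := rhoP_ge l
  -- cells at `X` have the majority value
  have hcell : ∀ (i : Mo.I) (x y p q : ℕ) (hx : x < Mo.a i) (hy : y < Mo.b i), x ≤ p → p ≤ x + 1 →
      y ≤ q → q ≤ y + 1 → gpt Mo hM i p q = X → kap Mo c i = κ := by
    intro i x y p q hx hy hp hp' hq hq' hXe
    have h1 := gcell_at hM i hx hy hp hp' hq hq'
    rw [hXe] at h1
    have h2 := hX _ h1
    rw [← gval_eq c i hx hy] at h2
    by_contra hne
    have h3 : gval Mo c i x y ≠ kap Mo c i := by
      rw [h2]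
      exact fun h => hne h.symm
    obtain ⟨u, hu, hun⟩ := cell_near hM hN hC c i hx hy h3 hp hp' hq hq'
    rw [hXe] at hun
    exact hfar u hu (near_mono hun (by omega) subset_rfl)
  obtain ⟨Xv, hok⟩ := X
  rcases Xv with x | ⟨i, p, q⟩
  · -- a real vertex
    have hxr : x ∈ Mo.Real := hok
    have hxQ : x ∈ Q := by
      by_contra h
      exact hXO ⟨x, rfl, h⟩
    refine ⟨x, ⟨hxQ, hxr⟩, ?_, ?_⟩
    · intro f hf
      by_cases hfr : ∀ i, Mo.c i f = 0
      · rw [chat_real c hfr]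
        refine hX _ ?_
        obtain ⟨e, hfe, hex⟩ := hf
        have hoke : Mo.okE (Sum.inl e) := by
          intro z hz i hzi
          have h1 : Mo.c i f = 1 := hzi f ⟨e, hfe, hz⟩
          rw [hfr i] at h1
          exact absurd h1 (by decide)
        exact ⟨⟨Sum.inl e, hoke⟩, ⟨e, hfe, rfl⟩, ⟨x, hex, rfl⟩⟩
      · obtain ⟨i, hi⟩ := not_forall.1 hfr
        rw [chat_mouth c hi]
        obtain ⟨t, ht, htx⟩ := real_at_mouth hM hxr hi hf
        obtain ⟨h1, h2⟩ := bcell_lt i ht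
        obtain ⟨b1, b2, b3, b4⟩ := bpt_bcell i ht
        refine hcell i _ _ _ _ h1 h2 b1 b2 b3 b4 ?_
        exact Subtype.ext ((gp_bpt i ht).trans (congrArg Sum.inl htx))
    · intro v hv hvn
      obtain ⟨u, hu, hun⟩ := chat_vs_near hM hN hC c hcO hv (near_right hvn).2
      have h1 := near_trans (near_rv hM hvn hxr (near_right hvn).2) hun
      exact hfar u hu (near_mono h1 (by omega) subset_rfl)
  · -- an interior grid point
    have hok' : 0 < p ∧ p < Mo.a i ∧ 0 < q ∧ q < Mo.b i := hok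
    obtain ⟨hp0, hpa, hq0, hqb⟩ := hok'
    have hXe : gpt Mo hM i p q = ⟨Sum.inr (i, p, q), hok⟩ := by
      refine Subtype.ext ?_
      change Mo.gp i p q = _
      unfold Mouths.gp
      rw [if_pos ⟨hp0, hpa, hq0, hqb⟩]
    have hκ : kap Mo c i = κ :=
      hcell i p q p q hpa hqb le_rfl (by omega) le_rfl (by omega) hXe
    by_cases hdeep : ∃ t, ∀ v ∈ M.vs (M.dF (chat Mo c)),
        ¬ Near M.graph (Q ∩ Mo.Real) (rho (3 * l)) (Mo.gv i t) v
    · obtain ⟨t, ht⟩ := hdeep
      refine ⟨Mo.gv i t, ⟨gv_mem hM hC i t, gv_real hM i t⟩, ?_, ht⟩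
      intro f hf
      obtain ⟨f0, g0, hf0, -, hcf0, -⟩ := ge_faces hM i t
      have hmem : Mo.gv i t ∈ Q ∩ Mo.Real := ⟨gv_mem hM hC i t, gv_real hM i t⟩
      have h1 : Mo.gv i t ∉ M.vs (M.dF (chat Mo c)) := fun h2 =>
        ht _ h2 (near_mono (near_refl hmem) (Nat.zero_le _) subset_rfl)
      rw [star_const hM h1 hf ⟨_, hf0, (Mo.ge_inc i t).1⟩,
        chat_mouth c (i := i) (by rw [hcf0]; decide), hκ]
    · exfalso
      push Not at hdeep
      have hfin : (M.vs (M.dF (chat Mo c))).Finite := Set.toFinite _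
      have h1 := mouth_small hC i (rho (3 * l)) hfin.toFinset fun t _ => by
        obtain ⟨v, hv, hvn⟩ := hdeep t
        exact ⟨v, hfin.mem_toFinset.2 hv, hvn⟩
      have h2 : hfin.toFinset.card ≤ 6 * l := by
        rw [← Set.ncard_eq_toFinset_card _ hfin]
        have h3 := vs_card hM (M.dF (chat Mo c))
        have h4 := wt_chat hM hN c
        omega
      have h3 : 2 * (Mo.a i + Mo.b i) ≤ (8 * rho (3 * l) + 1) * (6 * l) :=
        h1.trans (Nat.mul_le_mul_left _ h2)
      obtain ⟨v, hv, hvn⟩ := hdeep p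
      obtain ⟨u, hu, hun⟩ := chat_vs_near hM hN hC c hcO hv (near_right hvn).2
      have h4 := near_trans (near_rv hM hvn (gv_real hM i p) (near_right hvn).2) hun
      have h5 := gpt_near hM hC i (x := p) (y := q) (x' := p) (y' := 0) (by omega) (by omega)
        (by omega) (by omega)
      have h6 : gpt Mo hM i p 0 = rv Mo (Mo.gv i p) (gv_real hM i p) := by
        refine Subtype.ext ?_
        change Mo.gp i p 0 = _
        simp [Mouths.gp, bix, rv]
      rw [h6, hXe] at h5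
      refine hfar u hu (near_mono (near_trans h5 h4) ?_ subset_rfl)
      unfold rhoP
      have h7 : (8 * rho (3 * l) + 1) * (6 * l) ≤ 2 * (6 * l * (4 * rho (3 * l) + 2)) := by
        nlinarith
      omega

end Pool.Agent.H.MP_c8cc4c_co.Lp
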