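import Mathlib
import Pool.Agent.H.MP_c8cc4c_co.L.Deep

/-! # MP_c8cc4c_co, part L (section 6), file LLC: linear connectivity of the glued complex -/

open scoped Classical
open Finset

noncomputable section

namespace Pool.Agent.H.MP_c8cc4c_co.Lp

variable {M : PC} {Mo : Mouths M}

theorem rho_mono {m n : ℕ} (h : m ≤ n) : rho m ≤ rho n := by
  unfold rho
  exact Nat.add_le_add (Nat.pow_le_pow_left h 2) h

/-- a chain whose boundary is in `Q` is constant on the faces that meet the complement of `Q` -/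
theorem const_out (hM : M.IsSphere) {Q : Set M.V} (hQc : ConnOn M.graph Qᶜ) {c : M.F → ZMod 2}
    (hc : ∀ v ∈ M.vs (M.dF c), v ∈ Q) :
    ∃ κ : ZMod 2, ∀ f x, M.At f x → x ∉ Q → c f = κ := by
  by_cases h : ∃ f x, M.At f x ∧ x ∉ Q
  · obtain ⟨f0, x0, hf0, hx0⟩ := h
    refine ⟨c f0, fun f x hf hx => ?_⟩
    obtain ⟨n, hn⟩ := hQc.2 x hx x0 hx0
    exact near_const hM (A := Qᶜ) (fun v (hv : v ∉ Q) hv' => hv (hc v hv')) hn hf hf0
  · exact ⟨0, fun f x hf hx => absurd ⟨f, x, hf, hx⟩ h⟩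

/-- PART L -/
theorem llc (hG : GlueSphereStmt) : LLCStmt := by
  intro M hM _ _ Q _ hQc l1 Mo hC lmax hl l hlm c hwt hcO X Y hXO hYO hX hY
  have hN := hG M hM Mo
  by_contra hcon
  push Not at hcon
  obtain ⟨hXf, hYf⟩ := hcon
  obtain ⟨x, hx, hx1, hxd⟩ := deep_vertex hM hN hC c hcO l hwt 1 X hXO hX hXf
  obtain ⟨y, hy, hy0, hyd⟩ := deep_vertex hM hN hC c hcO l hwt 0 Y hYO hY hYf
  have hw : M.wt (M.dF (chat Mo c)) ≤ 3 * l := (wt_chat hM hN c).trans (Nat.mul_le_mul_left _ hwt)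
  have hvs : ∀ v ∈ M.vs (M.dF (chat Mo c)), v ∈ Q ∩ Mo.Real := fun v hv =>
    chat_vs hM hN hC c hcO hv
  obtain ⟨κ, hκ⟩ := const_out hM hQc (c := chat Mo c) fun v hv => (hvs v hv).1
  have hxd' : ∀ v ∈ M.vs (M.dF (chat Mo c)), ¬ Near M.graph (Q ∩ Mo.Real)
      (rho (M.wt (M.dF (chat Mo c)))) x v := fun v hv h =>
    hxd v hv (near_mono h (rho_mono hw) subset_rfl)
  have hyd' : ∀ v ∈ M.vs (M.dF (chat Mo c)), ¬ Near M.graph (Q ∩ Mo.Real)
      (rho (M.wt (M.dF (chat Mo c)))) y v := fun v hv h =>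
    hyd v hv (near_mono h (rho_mono hw) subset_rfl)
  rcases zmod2_cases κ with rfl | rfl
  · exact hC.nobad (chat Mo c) (by omega)
      ⟨hvs, hκ, x, hx, y, hy, hx1, hy0, hxd', hyd'⟩
  · have hd : M.dF (chat Mo c + 1) = M.dF (chat Mo c) := dF_compl hM _
    refine hC.nobad (chat Mo c + 1) (by rw [hd]; omega) ?_
    unfold Bad
    rw [hd]
    refine ⟨hvs, fun f z hf hz => ?_, y, hy, x, hx, fun f hf => ?_, fun f hf => ?_, hyd', hxd'⟩
    · rw [Pi.add_apply, hκ f z hf hz]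
      exact (by decide : (1 : ZMod 2) + 1 = 0)
    · rw [Pi.add_apply, hy0 f hf]
      exact (by decide : (0 : ZMod 2) + 1 = 1)
    · rw [Pi.add_apply, hx1 f hf]
      exact (by decide : (1 : ZMod 2) + 1 = 0)

end Pool.Agent.H.MP_c8cc4c_co.Lp
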